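import Mathlib

/-! Packet WRO, algebraic part: the Wronskian and the third order operator. -/

set_option autoImplicit false

namespace Pool.Agent.Helper43.Fr.PkWRO

section alg

variable {R A : Type*} [CommRing R] [CommRing A] [Algebra R A] (θ : Derivation R A A)

theorem dn2 : θ (2 : A) = 0 := by
  have h := Derivation.map_natCast θ 2
  rwa [Nat.cast_ofNat] at h

theorem dn4 : θ (4 : A) = 0 := by
  have h := Derivation.map_natCast θ 4
  rwa [Nat.cast_ofNat] at h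

theorem dn16 : θ (16 : A) = 0 := by
  have h := Derivation.map_natCast θ 16
  rwa [Nat.cast_ofNat] at h

theorem dmul (a b : A) : θ (a * b) = a * θ b + b * θ a := by
  rw [Derivation.leibniz, smul_eq_mul, smul_eq_mul]

theorem dsq (a : A) : θ (a ^ 2) = 2 * a * θ a := by
  rw [pow_two, dmul]
  ring

/-- the operator `2L` -/
def L2 (D c u : A) : A :=
  2 * D * θ (θ (θ u)) + 3 * θ D * θ (θ u) + (θ (θ D) + 8 * c) * θ u + 4 * θ c * u

/-- the operator `2L'` -/
def L2' (D c u : A) : A :=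
  6 * D * θ (θ u) + 6 * θ D * θ u + (θ (θ D) + 8 * c) * u

/-- the twisted Wronskian -/
def Wr (y b : A) : A := y ^ 2 + y * θ b - b * θ y

theorem core [IsDomain A] {D c y b s : A} (hD : D ≠ 0) (h2 : (2 : A) ≠ 0)
    (hy : L2 θ D c y = 0) (hb : L2 θ D c b + L2' θ D c y = 0)
    (hs : 2 * D * θ s = θ D * s) : L2 θ D c (s * Wr θ y b) = 0 := by
  obtain ⟨W, hW⟩ : ∃ W, W = Wr θ y b := ⟨_, rfl⟩
  rw [← hW]
  simp only [L2, L2'] at hy hb
  have hW1 : θ W = 2 * y * θ y + y * θ (θ b) - b * θ (θ y) := by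
    rw [hW, Wr]
    simp only [map_sub, map_add, dmul, dsq]
    ring
  have hW2 : θ (θ W) = 2 * θ y ^ 2 + 2 * y * θ (θ y) + θ y * θ (θ b) + y * θ (θ (θ b))
      - θ b * θ (θ y) - b * θ (θ (θ y)) := by
    rw [hW1]
    simp only [map_sub, map_add, dmul, dn2, dn4, dn16]
    ring
  obtain ⟨Z, hZ⟩ : ∃ Z, Z = 2 * θ y ^ 2 - y * θ (θ y) + θ y * θ (θ b) - θ b * θ (θ y) :=
    ⟨_, rfl⟩
  have hZ1 : θ Z = 3 * θ y * θ (θ y) - y * θ (θ (θ y)) + θ y * θ (θ (θ b))
      - θ b * θ (θ (θ y)) := by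
    rw [hZ]
    simp only [map_sub, map_add, dmul, dsq, dn2, dn4, dn16]
    ring
  have r1 : 2 * D * θ (θ W) + 3 * θ D * θ W + (θ (θ D) + 8 * c) * W = 2 * D * Z := by
    rw [hW2, hW1, hW, Wr, hZ]
    linear_combination y * hb - b * hy
  have r2 : 2 * D * θ Z = 4 * θ c * W - 3 * θ D * Z := by
    rw [hZ1, hW, Wr, hZ]
    linear_combination θ y * hb - (y + θ b) * hy
  obtain ⟨P, hP⟩ : ∃ P, P = θ D * W + 2 * D * θ W := ⟨_, rfl⟩
  have hP1 : θ P = 2 * D * Z - 8 * c * W := by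
    rw [hP]
    simp only [map_add, dmul, dn2, dn4, dn16]
    linear_combination r1
  obtain ⟨Q, hQ⟩ : ∃ Q, Q = 4 * D ^ 2 * Z - 16 * c * D * W - θ D * P := ⟨_, rfl⟩
  have hQ1 : θ Q = -8 * θ c * D * W - (8 * c + θ (θ D)) * P := by
    rw [hQ]
    simp only [map_sub, dmul, dsq, dn2, dn4, dn16]
    rw [hP1]
    rw [hP]
    linear_combination 2 * D * r2
  obtain ⟨u, hu⟩ : ∃ u, u = s * W := ⟨_, rfl⟩
  rw [← hu]
  have e1 : 2 * D * θ u = s * P := by
    rw [hu, dmul, hP]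
    linear_combination W * hs
  have e2 : 4 * D ^ 2 * θ (θ u) = s * Q := by
    have h := congrArg θ e1
    simp only [dmul, dn2, dn4, dn16] at h
    rw [hP1] at h
    rw [hQ]
    linear_combination 2 * D * h - 2 * θ D * e1 + P * hs
  have e3 : 8 * D ^ 3 * θ (θ (θ u)) =
      s * (-16 * θ c * D ^ 2 * W - 2 * D * (8 * c + θ (θ D)) * P - 3 * θ D * Q) := by
    have h := congrArg θ e2
    simp only [dmul, dn2, dn4, dn16, dsq] at h
    rw [hQ1] at h
    linear_combination 2 * D * h - 4 * θ D * e2 + Q * hs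
  have key : (4 * D ^ 2) * L2 θ D c u = 0 := by
    rw [L2]
    linear_combination e3 + 3 * θ D * e2 + (θ (θ D) + 8 * c) * 2 * D * e1
      + 16 * θ c * D ^ 2 * hu
  rcases mul_eq_zero.1 key with h | h
  · exfalso
    rcases mul_eq_zero.1 h with h | h
    · have h4 : (4 : A) = 2 * 2 := by norm_num
      rw [h4] at h
      exact h2 (mul_self_eq_zero.1 h)
    · exact hD (pow_eq_zero_iff (two_ne_zero) |>.1 h)
  · exact h

end alg

end Pool.Agent.Helper43.Fr.PkWRO
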