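import Pool.Agent.Helper43.Fr.Goals
import Pool.Agent.Helper96.Fr.WroAlg

/-! Packet WRO. -/

set_option autoImplicit false

namespace Pool.Agent.Helper43.Fr.PkWRO

open Polynomial

section pol

variable {R : Type*} [CommRing R]

theorem thP_eq (f : R[X]) : thP f = X * derivative f := rfl

theorem coeff_thP (f : R[X]) (n : ℕ) : (thP f).coeff n = n * f.coeff n := by
  rw [thP_eq]
  cases n with
  | zero => rw [coeff_X_mul_zero, Nat.cast_zero, zero_mul]
  | succ n =>
    rw [coeff_X_mul, coeff_derivative]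
    push_cast
    ring

theorem thP_X : thP (X : R[X]) = X := by rw [thP_eq, derivative_X, mul_one]

theorem thnat (n : ℕ) : thP ((n : ℕ) : R[X]) = 0 := Derivation.map_natCast thP n

theorem thDD : thP (DD (X : R[X])) = -(28 * X) - 256 * X ^ 2 := by
  have h1 : thP (1 : R[X]) = 0 := by exact_mod_cast thnat (R := R) 1
  have h2 : thP (28 : R[X]) = 0 := by exact_mod_cast thnat (R := R) 28
  have h3 : thP (128 : R[X]) = 0 := by exact_mod_cast thnat (R := R) 128
  rw [DD, map_sub, map_sub, h1, dmul, dmul, dsq, thP_X, h2, h3]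
  ring

theorem thDD2 : thP (thP (DD (X : R[X]))) = -(28 * X) - 512 * X ^ 2 := by
  have h2 : thP (28 : R[X]) = 0 := by exact_mod_cast thnat (R := R) 28
  have h3 : thP (256 : R[X]) = 0 := by exact_mod_cast thnat (R := R) 256
  rw [thDD, map_sub, map_neg, dmul, dmul, dsq, thP_X, h2, h3]
  ring

theorem thc : thP (-(2 * X) - 24 * X ^ 2 : R[X]) = -(2 * X) - 48 * X ^ 2 := by
  have h2 : thP (2 : R[X]) = 0 := by exact_mod_cast thnat (R := R) 2
  have h3 : thP (24 : R[X]) = 0 := by exact_mod_cast thnat (R := R) 24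
  rw [map_sub, map_neg, dmul, dmul, dsq, thP_X, h2, h3]
  ring

theorem L2_eq (f : R[X]) : L2 thP (DD X) (-(2 * X) - 24 * X ^ 2) f = 2 * Lop f := by
  rw [L2, Lop, thDD2, thDD, thc]
  ring

theorem L2'_eq (f : R[X]) : L2' thP (DD X) (-(2 * X) - 24 * X ^ 2) f = 2 * Lop' f := by
  rw [L2', Lop', thDD2, thDD]
  ring

theorem coeff_mul_low (P f : R[X]) (n : ℕ) (h : ∀ m < n, f.coeff m = 0) :
    (P * f).coeff n = P.coeff 0 * f.coeff n := by
  rw [coeff_mul, Finset.sum_eq_single (0, n)]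
  · intro b hb hne
    rw [Finset.HasAntidiagonal.mem_antidiagonal] at hb
    have h1 : b.2 < n := by
      by_contra hc
      apply hne
      ext
      · simp only
        omega
      · simp only
        omega
    rw [h _ h1, mul_zero]
  · intro h
    exact absurd (by simp) h

theorem coeff_Lop_low (f : R[X]) (n : ℕ) (h : ∀ m < n, f.coeff m = 0) :
    (Lop f).coeff n = (n : R) ^ 3 * f.coeff n := by
  have h1 : ∀ m < n, (thP f).coeff m = 0 := fun m hm => by
    rw [coeff_thP, h m hm, mul_zero]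
  have h2 : ∀ m < n, (thP (thP f)).coeff m = 0 := fun m hm => by
    rw [coeff_thP, h1 m hm, mul_zero]
  have h3 : ∀ m < n, (thP (thP (thP f))).coeff m = 0 := fun m hm => by
    rw [coeff_thP, h2 m hm, mul_zero]
  rw [Lop, coeff_sub, coeff_sub, coeff_sub, coeff_mul_low _ _ _ h3, coeff_mul_low _ _ _ h2,
    coeff_mul_low _ _ _ h1, coeff_mul_low _ _ _ h, coeff_thP, coeff_thP, coeff_thP]
  simp [DD, coeff_zero_eq_eval_zero]
  ring

theorem Lop_mul {E f : R[X]} (hE : thP E = 0) : Lop (E * f) = E * Lop f := by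
  have h : ∀ g : R[X], thP (E * g) = E * thP g := fun g => by
    rw [dmul, hE, mul_zero, add_zero]
  rw [Lop, Lop, h, h, h]
  ring

theorem Lop_sub (f g : R[X]) : Lop (f - g) = Lop f - Lop g := by
  rw [Lop, Lop, Lop]
  simp only [map_sub]
  ring

end pol

section zmod

variable {p : ℕ} [hp : Fact p.Prime]

theorem eq_zero_of_Lop {v : (ZMod p)[X]} (hL : Lop v = 0) (hv : ∀ j, v.coeff (p * j) = 0) :
    v = 0 := by
  ext n
  induction n using Nat.strong_induction_on with
  | _ n ih =>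
    rw [coeff_zero]
    by_cases hn : p ∣ n
    · obtain ⟨j, rfl⟩ := hn
      exact hv j
    · have h := coeff_Lop_low v n (fun m hm => by rw [ih m hm, coeff_zero])
      rw [hL, coeff_zero] at h
      have h0 : (n : ZMod p) ≠ 0 := by rwa [Ne, ZMod.natCast_eq_zero_iff]
      rcases mul_eq_zero.1 h.symm with h | h
      · exact absurd (pow_eq_zero_iff three_ne_zero |>.1 h) h0
      · exact h

theorem thP_expand (C : (ZMod p)[X]) : thP (expand (ZMod p) p C) = 0 := by
  ext n
  rw [coeff_thP, coeff_expand hp.out.pos, coeff_zero]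
  by_cases hn : p ∣ n
  · rw [(ZMod.natCast_eq_zero_iff n p).2 hn, zero_mul]
  · rw [if_neg hn, mul_zero]

theorem coeff_expand_mul {y C : (ZMod p)[X]} (hy : y.natDegree < p) (j : ℕ) :
    (expand (ZMod p) p C * y).coeff (p * j) = C.coeff j * y.coeff 0 := by
  rw [coeff_mul, Finset.sum_eq_single (p * j, 0)]
  · simp only
    rw [coeff_expand hp.out.pos, if_pos (dvd_mul_right p j), Nat.mul_div_cancel_left _ hp.out.pos]
  · intro b hb hne
    rw [Finset.HasAntidiagonal.mem_antidiagonal] at hb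
    rw [coeff_expand hp.out.pos]
    by_cases h1 : p ∣ b.1
    · have h2 : p ∣ b.2 := (Nat.dvd_add_right h1).1 (hb ▸ dvd_mul_right p j)
      have h3 : b.2 ≠ 0 := by
        intro h4
        apply hne
        ext
        · simp only
          omega
        · exact h4
      have h5 : p ≤ b.2 := Nat.le_of_dvd (Nat.pos_of_ne_zero h3) h2
      rw [coeff_eq_zero_of_natDegree_lt (lt_of_lt_of_le hy h5), mul_zero]
    · rw [if_neg h1, zero_mul]
  · intro h
    exact absurd (by simp) h

/-- Solutions of `L u = 0` are multiples of the solution `y` of small degree. -/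
theorem sol_eq {y u : (ZMod p)[X]} (hy : y.natDegree < p) (hy0 : y.coeff 0 = 1)
    (hLy : Lop y = 0) (hLu : Lop u = 0) : u = (contract p u) ^ p * y := by
  rw [← ZMod.expand_card]
  have h := eq_zero_of_Lop (v := u - expand (ZMod p) p (contract p u) * y) ?_ ?_
  · exact sub_eq_zero.1 h
  · rw [Lop_sub, Lop_mul (thP_expand _), hLy, hLu, mul_zero, sub_zero]
  · intro j
    rw [coeff_sub, coeff_expand_mul hy, coeff_contract hp.out.ne_zero, hy0, mul_one, mul_comm,
      sub_self]

theorem dvd_of_pow {q C y : (ZMod p)[X]} {h : ℕ} (hq : q.degree = 1) (hy : y ≠ 0)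
    (hdeg : y.natDegree ≤ h) (hd : q ^ (h + 1) ∣ C ^ p * y) : q ∣ C := by
  by_contra hc
  have h1 : IsCoprime q C := (irreducible_of_degree_eq_one hq).coprime_iff_not_dvd.2 hc
  have h2 : IsCoprime (q ^ (h + 1)) (C ^ p) := h1.pow
  have h3 : q ^ (h + 1) ∣ y := h2.dvd_of_dvd_mul_left hd
  have h4 := natDegree_le_of_dvd h3 hy
  have hq' : q.natDegree = 1 := by rw [natDegree, hq]; rfl
  rw [natDegree_pow, hq'] at h4
  omega

theorem F1_coeff {S : Type*} [CommRing S] (p n : ℕ) :
    (F1 S p).coeff n = if n < p then (aa n : S) else 0 := by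
  rw [F1, finsetSum_coeff]
  simp only [coeff_monomial]
  by_cases h : n < p
  · rw [Finset.sum_ite_eq' (Finset.range p) n, if_pos (Finset.mem_range.2 h), if_pos h]
  · rw [Finset.sum_ite_eq' (Finset.range p) n, if_neg (fun h' => h (Finset.mem_range.1 h')),
      if_neg h]

theorem natDegree_thP_le {S : Type*} [CommRing S] (f : S[X]) :
    (thP f).natDegree ≤ f.natDegree := by
  rw [natDegree_le_iff_coeff_eq_zero]
  intro n hn
  rw [coeff_thP, coeff_eq_zero_of_natDegree_lt hn, mul_zero]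

theorem wro : G_APJ → G_WRO := by
  intro hA p hp hp3 B hB
  obtain ⟨h, hh⟩ : ∃ h, h = (p - 1) / 2 := ⟨_, rfl⟩
  rw [← hh]
  have hodd : p = 2 * h + 1 := by
    have h1 : ¬ 2 ∣ p := fun h2 => by
      have := (Nat.prime_dvd_prime_iff_eq Nat.prime_two hp.out).1 h2
      omega
    omega
  have c2 : (2 : ZMod p) ≠ 0 := by
    intro h1
    have h2 : ((2 : ℕ) : ZMod p) = 0 := by exact_mod_cast h1
    rw [ZMod.natCast_eq_zero_iff] at h2
    have := Nat.le_of_dvd (by norm_num) h2
    omega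
  have c3 : (3 : ZMod p) ≠ 0 := by
    intro h1
    have h2 : ((3 : ℕ) : ZMod p) = 0 := by exact_mod_cast h1
    rw [ZMod.natCast_eq_zero_iff] at h2
    have := Nat.le_of_dvd (by norm_num) h2
    omega
  obtain ⟨y, hy⟩ : ∃ y, y = F1 (ZMod p) p := ⟨_, rfl⟩
  obtain ⟨b, hb⟩ : ∃ b, b = B.map (PadicInt.toZMod (p := p)) := ⟨_, rfl⟩
  rw [← hy, ← hb]
  have hLy : Lop y = 0 := by rw [hy]; exact hB.lop1
  have hLb : Lop b + Lop' y = 0 := by rw [hy, hb]; exact hB.lop
  have hy0 : y.coeff 0 = 1 := by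
    rw [hy, F1_coeff, if_pos hp.out.pos]
    simp [aa, franel]
  have hb0 : b.coeff 0 = 0 := by rw [hb, coeff_map, hB.zero, map_zero]
  have hydeg : y.natDegree ≤ h := by
    rw [natDegree_le_iff_coeff_eq_zero]
    intro n hn
    rw [hy, F1_coeff]
    by_cases h1 : n < p
    · rw [if_pos h1, ZMod.natCast_eq_zero_iff]
      exact (hA p hp3).2.2 n (by omega) h1
    · rw [if_neg h1]
  have hbdeg : b.natDegree ≤ 2 * h := by
    have h1 := natDegree_map_le (f := PadicInt.toZMod (p := p)) (p := B)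
    have h2 := hB.deg
    rw [hb]
    omega
  have hyne : y ≠ 0 := by
    intro h1
    rw [h1, coeff_zero] at hy0
    exact zero_ne_one hy0
  -- `D`
  obtain ⟨D, hD⟩ : ∃ D, D = (DD (X : (ZMod p)[X])) := ⟨_, rfl⟩
  have hπ : (1 - 32 * X : (ZMod p)[X]).degree = 1 := by
    have h1 : (1 - 32 * X : (ZMod p)[X]) = C (-32) * X + C 1 := by
      rw [C_neg, C_1]
      have : (C 32 : (ZMod p)[X]) = 32 := rfl
      rw [this]
      ring
    rw [h1]
    apply degree_linear
    have h2 : (-32 : ZMod p) = -(2 ^ 5) := by norm_num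
    rw [h2]
    exact neg_ne_zero.2 (pow_ne_zero _ c2)
  have hρ : (1 + 4 * X : (ZMod p)[X]).degree = 1 := by
    have h1 : (1 + 4 * X : (ZMod p)[X]) = C 4 * X + C 1 := by
      rw [C_1]
      have : (C 4 : (ZMod p)[X]) = 4 := rfl
      rw [this]
      ring
    rw [h1]
    apply degree_linear
    have h2 : (4 : ZMod p) = 2 ^ 2 := by norm_num
    rw [h2]
    exact pow_ne_zero _ c2
  have hcop : IsCoprime (1 - 32 * X : (ZMod p)[X]) (1 + 4 * X) := by
    refine ⟨C (9⁻¹), C (9⁻¹) * 8, ?_⟩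
    have h9 : (9 : ZMod p) ≠ 0 := by
      have h2 : (9 : ZMod p) = 3 ^ 2 := by norm_num
      rw [h2]
      exact pow_ne_zero _ c3
    have h1 : (C (9⁻¹) * 9 : (ZMod p)[X]) = 1 := by
      have : (9 : (ZMod p)[X]) = C 9 := rfl
      rw [this, ← C_mul, inv_mul_cancel₀ h9, C_1]
    linear_combination h1
  have hDf : D = (1 - 32 * X) * (1 + 4 * X) := by
    rw [hD, DD]
    ring
  have hπ0 : (1 - 32 * X : (ZMod p)[X]) ≠ 0 := fun h1 => by
    rw [h1, degree_zero] at hπ
    exact absurd hπ (by simp)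
  have hρ0 : (1 + 4 * X : (ZMod p)[X]) ≠ 0 := fun h1 => by
    rw [h1, degree_zero] at hρ
    exact absurd hρ (by simp)
  have hD0 : D ≠ 0 := by rw [hDf]; exact mul_ne_zero hπ0 hρ0
  have hDdeg : D.natDegree = 2 := by
    have h1 : (1 - 32 * X : (ZMod p)[X]).natDegree = 1 := by rw [natDegree, hπ]; rfl
    have h2 : (1 + 4 * X : (ZMod p)[X]).natDegree = 1 := by rw [natDegree, hρ]; rfl
    rw [hDf, natDegree_mul hπ0 hρ0, h1, h2]
  have hDc : D.coeff 0 = 1 := by
    rw [hD, DD]
    simp [coeff_zero_eq_eval_zero]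
  -- the Wronskian
  obtain ⟨W, hW⟩ : ∃ W, W = Wr thP y b := ⟨_, rfl⟩
  have hWdeg : W.natDegree ≤ 3 * h := by
    rw [hW, Wr]
    refine (natDegree_sub_le _ _).trans (max_le ((natDegree_add_le _ _).trans (max_le ?_ ?_)) ?_)
    · refine natDegree_pow_le.trans ?_
      nlinarith [hydeg]
    · refine natDegree_mul_le.trans ?_
      have := natDegree_thP_le b
      omega
    · refine natDegree_mul_le.trans ?_
      have := natDegree_thP_le y
      omega
  have hW0 : W.coeff 0 = 1 := by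
    rw [hW, Wr, coeff_sub, coeff_add, mul_coeff_zero, mul_coeff_zero, pow_two, mul_coeff_zero,
      hy0, hb0, coeff_thP]
    simp
  have hs : 2 * D * thP (D ^ (h + 1)) = thP D * D ^ (h + 1) := by
    rw [Derivation.leibniz_pow, Nat.add_sub_cancel, smul_eq_mul, nsmul_eq_mul]
    have h1 : ((2 * (h + 1) : ℕ) : (ZMod p)[X]) = 1 := by
      have h2 : 2 * (h + 1) = p + 1 := by omega
      rw [h2, Nat.cast_add, CharP.cast_eq_zero, Nat.cast_one, zero_add]
    push_cast at h1
    push_cast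
    linear_combination (thP D * D ^ (h + 1)) * h1
  have h2X : (2 : (ZMod p)[X]) ≠ 0 := by
    have h1 : (2 : (ZMod p)[X]) = C 2 := rfl
    rw [h1]
    exact C_ne_zero.2 c2
  have hcore := core thP (c := -(2 * X) - 24 * X ^ 2) (y := y) (b := b) hD0 h2X
    (by rw [hD, L2_eq, hLy, mul_zero])
    (by rw [hD, L2_eq, L2'_eq, ← mul_add, hLb, mul_zero]) hs
  rw [← hW, hD, L2_eq] at hcore
  have hLu : Lop (DD X ^ (h + 1) * W) = 0 := (mul_eq_zero.1 hcore).resolve_left h2X
  rw [← hD] at hLu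
  have hu := sol_eq (by omega) hy0 hLy hLu
  obtain ⟨C', hC'⟩ : ∃ C', C' = contract p (D ^ (h + 1) * W) := ⟨_, rfl⟩
  rw [← hC'] at hu
  have hudeg : (D ^ (h + 1) * W).natDegree < 3 * p := by
    refine lt_of_le_of_lt natDegree_mul_le ?_
    rw [natDegree_pow, hDdeg]
    omega
  have hC0 : C'.coeff 0 = 1 := by
    rw [hC', coeff_contract hp.out.ne_zero, zero_mul, mul_coeff_zero, hW0, mul_one,
      coeff_zero_eq_eval_zero, eval_pow, ← coeff_zero_eq_eval_zero, hDc, one_pow]
  have hCdeg : C'.natDegree ≤ 2 := by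
    rw [natDegree_le_iff_coeff_eq_zero]
    intro n hn
    rw [hC', coeff_contract hp.out.ne_zero]
    apply coeff_eq_zero_of_natDegree_lt
    refine lt_of_lt_of_le hudeg ?_
    exact Nat.mul_le_mul_right p hn
  have hCne : C' ≠ 0 := by
    intro h1
    rw [h1, coeff_zero] at hC0
    exact zero_ne_one hC0
  have hd1 : (1 - 32 * X : (ZMod p)[X]) ∣ C' := by
    refine dvd_of_pow hπ hyne hydeg ?_
    rw [← hu, hDf, mul_pow, mul_assoc]
    exact dvd_mul_right _ _
  have hd2 : (1 + 4 * X : (ZMod p)[X]) ∣ C' := by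
    refine dvd_of_pow hρ hyne hydeg ?_
    rw [← hu, hDf, mul_pow, mul_comm ((1 - 32 * X) ^ (h + 1)), mul_assoc]
    exact dvd_mul_right _ _
  obtain ⟨G, hG⟩ : D ∣ C' := by
    rw [hDf]
    exact hcop.mul_dvd hd1 hd2
  have hGne : G ≠ 0 := by
    rintro rfl
    rw [mul_zero] at hG
    exact hCne hG
  have hGdeg : G.natDegree = 0 := by
    rw [hG, natDegree_mul hD0 hGne, hDdeg] at hCdeg
    omega
  have hG1 : G = 1 := by
    rw [eq_C_of_natDegree_eq_zero hGdeg]
    rw [hG, mul_coeff_zero, hDc, one_mul] at hC0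
    rw [hC0, C_1]
  rw [hG1, mul_one] at hG
  rw [hG] at hu
  have hfin : D ^ (h + 1) * W = D ^ (h + 1) * (y * D ^ h) := by
    rw [hu]
    have : D ^ p = D ^ (h + 1) * D ^ h := by
      rw [← pow_add]
      congr 1
      omega
    rw [this]
    ring
  have := mul_left_cancel₀ (pow_ne_zero _ hD0) hfin
  rw [← hD, ← this, hW, Wr]

end zmod

end Pool.Agent.Helper43.Fr.PkWRO
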